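import Mathlib

set_option autoImplicit false

namespace Pool.Agent.H490Z.Dirac

/-- `G` is `k`-critical: its chromatic number is `k`, and every proper subgraph has a smaller
chromatic number. -/
def IsCritical {V : Type} (k : ℕ) (G : SimpleGraph V) : Prop :=
  G.chromaticNumber = k ∧ ∀ G' : G.Subgraph, G' ≠ ⊤ → G'.coe.chromaticNumber < k

/-- The vertex set after identifying `H₂` with `H₁` is `V₁ ⊕ (V₂ \ H₂)`.  This is the map sending a
vertex of the second graph to the new vertex set: a vertex of `H₂` goes to the vertex of `H₁` it is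
identified with through the bijection `σ`, every other vertex goes to itself. -/
def glue {V₁ V₂ : Type} [DecidableEq V₂] {H₁ : Finset V₁} {H₂ : Finset V₂} (σ : H₁ ≃ H₂)
    (v : V₂) : V₁ ⊕ {w : V₂ // w ∉ H₂} :=
  if h : v ∈ H₂ then Sum.inl (σ.symm ⟨v, h⟩ : V₁) else Sum.inr ⟨v, h⟩

/-- Dirac's construction: identify `H₁` with `H₂` along `σ`, keep the edges of `G₁` other than
`x₁y₁` and the edges of `G₂` other than `x₂y₂`, and add the edge `y₁y₂`. -/
def dirac {V₁ V₂ : Type} [DecidableEq V₂] (G₁ : SimpleGraph V₁) (G₂ : SimpleGraph V₂)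
    {H₁ : Finset V₁} {H₂ : Finset V₂} (σ : H₁ ≃ H₂) (x₁ y₁ : V₁) (x₂ y₂ : V₂) :
    SimpleGraph (V₁ ⊕ {w : V₂ // w ∉ H₂}) :=
  SimpleGraph.fromEdgeSet
    (Sym2.map Sum.inl '' (G₁.edgeSet \ {s(x₁, y₁)}) ∪
      Sym2.map (glue σ) '' (G₂.edgeSet \ {s(x₂, y₂)}) ∪
      {s(Sum.inl y₁, glue σ y₂)})

end Pool.Agent.H490Z.Dirac
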