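import Pool.Agent.H490Z.DiracDefs

set_option autoImplicit false

namespace Pool.Agent.H490Z.Dirac

/-- the edges of the 5-critical graph -/
def el : List (Fin 10 × Fin 10) :=
  [(0,2),(0,3),(0,4),(0,6),(0,8),(1,2),(1,3),(1,5),(1,7),(1,8),(2,3),(2,7),(2,8),(3,4),(3,6),
   (3,7),(4,6),(4,8),(4,9),(5,6),(5,7),(5,8),(6,7),(6,9),(7,9),(8,9)]

/-- the 5-critical graph on ten vertices -/
def G10 : SimpleGraph (Fin 10) where
  Adj a b := (a, b) ∈ el ∨ (b, a) ∈ el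
  symm := ⟨fun _ _ h => h.symm⟩
  loopless := ⟨by decide⟩

instance : DecidableRel G10.Adj := fun a b =>
  inferInstanceAs (Decidable ((a, b) ∈ el ∨ (b, a) ∈ el))

/-- colourings of the graph with one edge removed -/
def cl : List (List (Fin 4)) :=
  [[0,1,0,2,3,0,1,3,2,0],[0,1,2,0,1,0,2,3,3,0],[0,0,1,2,0,2,1,3,3,2],[0,0,1,2,1,1,0,3,3,2],
   [0,1,2,3,1,3,2,0,0,3],[0,1,1,2,1,2,3,0,3,2],[0,1,2,1,2,2,3,0,3,1],[0,0,1,2,3,0,1,3,2,0],
   [0,0,1,2,1,1,3,0,3,2],[0,1,2,3,2,2,1,0,1,3],[0,0,1,1,2,1,3,2,3,0],[0,0,1,2,1,2,3,1,3,0],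
   [0,0,1,2,3,2,1,3,1,0],[0,0,1,2,2,2,1,3,3,0],[0,0,1,2,1,1,2,3,2,0],[0,0,1,2,1,1,3,2,2,0],
   [0,0,1,2,1,2,1,3,3,0],[0,0,1,2,3,2,1,3,3,0],[0,1,2,3,2,2,1,0,3,2],[0,0,1,2,3,1,1,3,2,0],
   [0,0,1,2,3,3,1,3,2,0],[0,0,1,2,3,2,1,3,2,0],[0,0,1,2,1,1,3,3,2,0],[0,1,2,3,2,2,1,0,3,1],
   [0,1,2,3,2,2,1,0,3,0],[0,1,2,3,2,2,1,0,3,3]]

set_option synthInstance.maxSize 4096 in
set_option maxRecDepth 100000 in
lemma key_aux : ∀ c0 c3 : Fin 4, c0 ≠ c3 → ∀ c2 : Fin 4, c2 ≠ c3 → ∀ c4 : Fin 4, c0 ≠ c4 → c3 ≠ c4 →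
    ∀ c6 : Fin 4, c0 ≠ c6 → c3 ≠ c6 → c4 ≠ c6 → ∀ c7 : Fin 4, c2 ≠ c7 → c3 ≠ c7 → c6 ≠ c7 →
    ∀ c1 : Fin 4, c1 ≠ c2 → c1 ≠ c3 → c1 ≠ c7 → ∀ c5 : Fin 4, c1 ≠ c5 → c5 ≠ c6 → c5 ≠ c7 →
    ∀ c9 : Fin 4, c4 ≠ c9 → c6 ≠ c9 → c7 ≠ c9 →
    ∀ c8 : Fin 4, c1 ≠ c8 → c2 ≠ c8 → c4 ≠ c8 → c5 ≠ c8 → c8 ≠ c9 →
    c8 = if c0 = c2 then c3 else c0 := by
  decide +kernel

/-- In a 4-colouring of the graph without the edges `02` and `08` the colour of `8` is determined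
by the colours of the triangle `0, 2, 3`. -/
lemma key (c : Fin 10 → Fin 4)
    (h : ∀ a b, G10.Adj a b → s(a, b) ≠ s(0, 2) → s(a, b) ≠ s(0, 8) → c a ≠ c b) :
    c 8 = if c 0 = c 2 then c 3 else c 0 := by
  refine key_aux (c 0) (c 3) ?_ (c 2) ?_ (c 4) ?_ ?_ (c 6) ?_ ?_ ?_ (c 7) ?_ ?_ ?_ (c 1) ?_ ?_ ?_
    (c 5) ?_ ?_ ?_ (c 9) ?_ ?_ ?_ (c 8) ?_ ?_ ?_ ?_ ?_ <;>
  exact h _ _ (by decide) (by decide) (by decide)

lemma not_col : ¬ G10.Colorable 4 := by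
  rintro ⟨c⟩
  have h := key c (fun a b hab _ _ => c.valid hab)
  have h02 : c 0 ≠ c 2 := c.valid (by decide)
  have h08 : c 0 ≠ c 8 := c.valid (by decide)
  rw [if_neg h02] at h
  exact h08 h.symm

lemma col5 : G10.Colorable 5 :=
  ⟨SimpleGraph.Coloring.mk (![0,0,1,2,1,1,3,4,2,0] : Fin 10 → Fin 5) (by decide)⟩

lemma del_col : ∀ a b : Fin 10, (a, b) ∈ el → ∃ l ∈ cl, ∀ u v : Fin 10, (u, v) ∈ el →
    (u, v) ≠ (a, b) → l.getD u 0 ≠ l.getD v 0 := by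
  decide +kernel

lemma no_iso : ∀ a : Fin 10, ∃ b, G10.Adj a b := by decide

lemma crit : IsCritical 5 G10 := by
  constructor
  · rw [show ((5 : ℕ) : ℕ∞) = (4 : ℕ) + 1 by norm_num,
      SimpleGraph.chromaticNumber_eq_iff_colorable_not_colorable]
    exact ⟨col5, not_col⟩
  · intro G' hG'
    have hex : ∃ a b, (a, b) ∈ el ∧ ¬ G'.Adj a b := by
      by_contra hc
      push Not at hc
      have hall : ∀ a b, G10.Adj a b → G'.Adj a b := by
        rintro a b (h | h)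
        · exact hc a b h
        · exact (hc b a h).symm
      apply hG'
      ext a b
      · obtain ⟨b, hb⟩ := no_iso a
        simpa using G'.edge_vert (hall a b hb)
      · exact ⟨fun h => G'.adj_sub h, fun h => hall a b h⟩
    obtain ⟨a, b, hab, hn⟩ := hex
    obtain ⟨l, -, hl⟩ := del_col a b hab
    have hcol : G'.coe.Colorable 4 := by
      refine ⟨SimpleGraph.Coloring.mk (fun v => l.getD (v : Fin 10) 0) ?_⟩
      intro u v huv
      have huv' : G'.Adj u v := huv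
      rcases G'.adj_sub huv' with h | h
      · refine hl u v h (fun he => hn ?_)
        obtain ⟨rfl, rfl⟩ := Prod.mk.inj he
        exact huv'
      · refine (hl v u h (fun he => hn ?_)).symm
        obtain ⟨rfl, rfl⟩ := Prod.mk.inj he
        exact huv'.symm
    exact lt_of_le_of_lt hcol.chromaticNumber_le (by norm_num)

/-- the triangle -/
def H3 : Finset (Fin 10) := {0, 2, 3}

lemma clique : G10.IsNClique 3 H3 := by
  refine ⟨?_, by decide⟩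
  intro a ha b hb hab
  revert a b
  decide

lemma glue_inj : Function.Injective (glue (Equiv.refl H3)) := by
  intro a b h
  unfold glue at h
  split_ifs at h with h1 h2 h2
  · simpa using h
  · simpa using h

lemma glue_mem (a : Fin 10) (h : a ∈ H3) : glue (Equiv.refl H3) a = Sum.inl a := by
  simp [glue, h]

lemma not_crit : ¬ IsCritical 5 (dirac G10 G10 (Equiv.refl H3) 0 8 0 8) := by
  rintro ⟨-, h⟩
  set G := dirac G10 G10 (Equiv.refl H3) 0 8 0 8 with hG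
  have hadj1 : ∀ a b, G10.Adj a b → s(a, b) ≠ s(0, 8) → G.Adj (Sum.inl a) (Sum.inl b) := by
    intro a b hab hne
    rw [hG, dirac, SimpleGraph.fromEdgeSet_adj]
    refine ⟨Or.inl (Or.inl ⟨s(a, b), ⟨hab, hne⟩, rfl⟩), ?_⟩
    simpa using hab.ne
  have hadj2 : ∀ a b, G10.Adj a b → s(a, b) ≠ s(0, 8) →
      G.Adj (glue (Equiv.refl H3) a) (glue (Equiv.refl H3) b) := by
    intro a b hab hne
    rw [hG, dirac, SimpleGraph.fromEdgeSet_adj]
    exact ⟨Or.inl (Or.inr ⟨s(a, b), ⟨hab, hne⟩, rfl⟩), glue_inj.ne hab.ne⟩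
  have h8 : glue (Equiv.refl H3) 8 = Sum.inr ⟨8, by decide⟩ := by
    unfold glue
    rw [dif_neg (by decide)]
  have hadj3 : G.Adj (Sum.inl 8) (glue (Equiv.refl H3) 8) := by
    rw [hG, dirac, SimpleGraph.fromEdgeSet_adj]
    refine ⟨Or.inr rfl, ?_⟩
    rw [h8]
    simp
  let G' : G.Subgraph := (⊤ : G.Subgraph).deleteEdges {s(Sum.inl 0, Sum.inl 2)}
  have hne : G' ≠ ⊤ := by
    intro he
    have h1 : (⊤ : G.Subgraph).Adj (Sum.inl 0) (Sum.inl 2) :=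
      hadj1 0 2 (by decide) (by decide)
    rw [← he] at h1
    simp [G'] at h1
  have hlt := h G' hne
  have hcol : G'.coe.Colorable 4 := by
    rw [← SimpleGraph.chromaticNumber_le_iff_colorable]
    have : ((5 : ℕ) : ℕ∞) = (4 : ℕ) + 1 := by norm_num
    rw [this] at hlt
    exact Order.le_of_lt_add_one hlt
  obtain ⟨C⟩ := hcol
  let c : Fin 10 ⊕ {w : Fin 10 // w ∉ H3} → Fin 4 := fun v => C ⟨v, by simp [G']⟩
  have hc : ∀ u v, G.Adj u v → s(u, v) ≠ s(Sum.inl 0, Sum.inl 2) → c u ≠ c v := by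
    intro u v huv hn
    apply C.valid
    simpa [G'] using ⟨huv, by simpa using hn⟩
  have k1 := key (fun a => c (Sum.inl a)) (by
    intro a b hab h1 h2
    refine hc _ _ (hadj1 a b hab h2) (fun he => h1 ?_)
    exact Sym2.map.injective Sum.inl_injective he)
  have k2 := key (fun a => c (glue (Equiv.refl H3) a)) (by
    intro a b hab h1 h2
    refine hc _ _ (hadj2 a b hab h2) (fun he => h1 ?_)
    rw [← glue_mem 0 (by decide), ← glue_mem 2 (by decide)] at he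
    exact Sym2.map.injective glue_inj he)
  simp only [glue_mem 0 (by decide), glue_mem 2 (by decide), glue_mem 3 (by decide)] at k2
  refine hc _ _ hadj3 ?_ (k1.trans k2.symm)
  rw [h8]
  simp

end Pool.Agent.H490Z.Dirac
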