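import Mathlib

set_option autoImplicit false

namespace Pool.Agent.H490Z.RelFree

open FirstOrder FirstOrder.Language

/-- The language with one function symbol of each arity. -/
abbrev LL : FirstOrder.Language := FirstOrder.Language.mk (fun _ => Unit) (fun _ => Empty)

section Grp
variable {G : Type} [Group G]

/-- Iterated value `T 0 w = w`, `T (n+1) w = T n (w * w * v n)`. -/
def tval (v : ℕ → G) : ℕ → G → G
  | 0, w => w
  | n + 1, w => tval v n (w * w * v n)

lemma map_tval (φ : G →* G) (v : ℕ → G) (n : ℕ) (w : G) :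
    φ (tval v n w) = tval (fun i => φ (v i)) n (φ w) := by
  induction n generalizing w with
  | zero => rfl
  | succ n ih => simp [tval, ih]

lemma tval_one (v : ℕ → G) (n : ℕ) (hv : ∀ i < n, v i = 1) (w : G) :
    tval v n w = w ^ (2 ^ n) := by
  induction n generalizing w with
  | zero => simp [tval]
  | succ n ih =>
    rw [tval, ih (fun i hi => hv i (by omega)), hv n (by omega), mul_one, ← pow_two, ← pow_mul,
      pow_succ']

lemma tval_z (z : ℕ → G) (n : ℕ) :
    tval (fun i => (z (i + 1) * z (i + 1))⁻¹ * z i) n (z n) = z 0 := by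
  induction n with
  | zero => rfl
  | succ n ih =>
    rw [tval, mul_inv_cancel_left]
    exact ih

lemma exists_elem {X : Set G} (hX : Subgroup.closure X = ⊤)
    (hf : ∀ f : X → G, ∃ φ : G →* G, ∀ x : X, φ x = f x) (x y : G) (hx : x ∈ X) (hy : y ∈ X)
    (hxy : x ≠ y) :
    ∃ e : G ≃* G, e x = (y * y)⁻¹ * x ∧ ∀ u ∈ X, u ≠ x → e u = u := by
  classical
  obtain ⟨φ, hφ⟩ := hf (fun u => if (u : G) = x then (y * y)⁻¹ * x else u)
  obtain ⟨ψ, hψ⟩ := hf (fun u => if (u : G) = x then (y * y) * x else u)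
  have hφx : φ x = (y * y)⁻¹ * x := by simpa using hφ ⟨x, hx⟩
  have hψx : ψ x = (y * y) * x := by simpa using hψ ⟨x, hx⟩
  have hφu : ∀ u ∈ X, u ≠ x → φ u = u := fun u hu h => by simpa [h] using hφ ⟨u, hu⟩
  have hψu : ∀ u ∈ X, u ≠ x → ψ u = u := fun u hu h => by simpa [h] using hψ ⟨u, hu⟩
  have h1 : ψ.comp φ = MonoidHom.id G := by
    apply MonoidHom.eq_of_eqOn_dense hX
    intro u hu
    by_cases h : u = x
    · subst h
      simp [hφx, hψx, hψu y hy hxy.symm, mul_assoc]
    · simp [hφu u hu h, hψu u hu h]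
  have h2 : φ.comp ψ = MonoidHom.id G := by
    apply MonoidHom.eq_of_eqOn_dense hX
    intro u hu
    by_cases h : u = x
    · subst h
      simp [hφx, hψx, hφu y hy hxy.symm, mul_assoc]
    · simp [hφu u hu h, hψu u hu h]
  refine ⟨MonoidHom.toMulEquiv φ ψ h1 h2, hφx, hφu⟩

lemma exists_aut {X : Set G} (hX : Subgroup.closure X = ⊤)
    (hf : ∀ f : X → G, ∃ φ : G →* G, ∀ x : X, φ x = f x) (z : ℕ → G) (hz : ∀ i, z i ∈ X)
    (hinj : Function.Injective z) (n : ℕ) :
    ∃ α : G ≃* G, (∀ i < n, α (z i) = (z (i + 1) * z (i + 1))⁻¹ * z i) ∧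
      ∀ j, n ≤ j → α (z j) = z j := by
  induction n with
  | zero => exact ⟨MulEquiv.refl G, fun i hi => absurd hi (by omega), fun _ _ => rfl⟩
  | succ n ih =>
    obtain ⟨α, h1, h2⟩ := ih
    obtain ⟨e, he1, he2⟩ := exists_elem hX hf (z n) (z (n + 1)) (hz _) (hz _)
      (fun h => by have := hinj h; omega)
    refine ⟨e.trans α, fun i hi => ?_, fun j hj => ?_⟩
    · rcases Nat.lt_succ_iff_lt_or_eq.1 hi with h | h
      · rw [MulEquiv.trans_apply, he2 _ (hz i) (fun h' => by have := hinj h'; omega), h1 i h]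
      · subst h
        rw [MulEquiv.trans_apply, he1]
        simp [h2 i le_rfl, h2 (i + 1) (by omega)]
    · rw [MulEquiv.trans_apply, he2 _ (hz j) (fun h' => by have := hinj h'; omega),
        h2 j (by omega)]

lemma no_limit (htf : ∀ g : G, ∀ n : ℕ, 0 < n → g ^ n = 1 → g = 1) {X : Set G}
    (hX : Subgroup.closure X = ⊤)
    (hf : ∀ f : X → G, ∃ φ : G →* G, ∀ x : X, φ x = f x) (z : ℕ → G) (hz : ∀ i, z i ∈ X)
    (hinj : Function.Injective z) (d : G) (hd : ∀ n, ∃ w, d = tval z n w) : False := by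
  classical
  obtain ⟨g, hg⟩ : ∃ g : G, g ≠ 1 := by
    by_contra h
    push Not at h
    have := hinj ((h (z 0)).trans (h (z 1)).symm)
    omega
  choose φ hφ using fun j : ℕ => hf (fun u => if (u : G) = z j then g else 1)
  have hφz : ∀ j, φ j (z j) = g := fun j => by simpa using hφ j ⟨z j, hz j⟩
  have hφu : ∀ j, ∀ u ∈ X, u ≠ z j → φ j u = 1 := fun j u hu h => by
    simpa [h] using hφ j ⟨u, hu⟩
  have hev : ∀ u : G, ∀ᶠ j in Filter.atTop, φ j u = 1 := by
    intro u
    have hu : u ∈ Subgroup.closure X := hX ▸ Subgroup.mem_top u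
    induction hu using Subgroup.closure_induction with
    | mem x hx =>
      have hfin : {j | z j = x}.Finite := by
        apply Set.Subsingleton.finite
        intro a ha b hb
        exact hinj (ha.trans hb.symm)
      have := hfin.eventually_cofinite_notMem
      rw [Nat.cofinite_eq_atTop] at this
      filter_upwards [this] with j hj
      exact hφu j x hx (fun h => hj h.symm)
    | one => simp
    | mul x y _ _ hx hy =>
      filter_upwards [hx, hy] with j h1 h2
      simp [h1, h2]
    | inv x _ hx =>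
      filter_upwards [hx] with j h1
      simp [h1]
  have hrange : ∀ j u, φ j u ∈ Subgroup.zpowers g := by
    intro j u
    have hu : u ∈ Subgroup.closure X := hX ▸ Subgroup.mem_top u
    induction hu using Subgroup.closure_induction with
    | mem x hx =>
      by_cases h : x = z j
      · rw [h, hφz]; exact Subgroup.mem_zpowers g
      · rw [hφu j x hx h]; exact Subgroup.one_mem _
    | one => simp
    | mul x y _ _ hx hy => rw [map_mul]; exact Subgroup.mul_mem _ hx hy
    | inv x _ hx => rw [map_inv]; exact Subgroup.inv_mem _ hx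
  obtain ⟨j, hj⟩ := (hev d).exists
  obtain ⟨w, hw⟩ := hd (j + 1)
  rw [hw, map_tval, tval, tval_one _ j
    (fun i hi => hφu j _ (hz i) (fun h => by have := hinj h; omega))] at hj
  have h1 := htf _ _ (by positivity) hj
  obtain ⟨m, hm⟩ := Subgroup.mem_zpowers_iff.1 (hrange j w)
  rw [← hm, hφz] at h1
  have h2 : g ^ (2 * m + 1) = 1 := by
    rw [← h1, zpow_add, zpow_one, two_mul, zpow_add]
  have h3 : g ^ (2 * m + 1).natAbs = 1 := by
    rcases Int.natAbs_eq (2 * m + 1) with h | h
    · rw [← zpow_natCast, ← h, h2]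
    · have : ((2 * m + 1).natAbs : ℤ) = -(2 * m + 1) := by omega
      rw [← zpow_natCast, this, zpow_neg, h2, inv_one]
  exact hg (htf g _ (by omega) h3)

end Grp

/-- The term version of `tval`. -/
def tterm {β : Type} (y : ℕ → LL.Term β) : ℕ → LL.Term β → LL.Term β
  | 0, t => t
  | n + 1, t => tterm y n (Term.func (l := 3) () ![t, t, y n])

lemma realize_tterm {G : Type} [Group G] [LL.Structure G]
    (hS : ∀ (n : ℕ) (f : LL.Functions n) (xs : Fin n → G),
      Structure.funMap f xs = (List.ofFn xs).prod)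
    {β : Type} (y : ℕ → LL.Term β) (v : β → G) (n : ℕ) (t : LL.Term β) :
    (tterm y n t).realize v = tval (fun i => (y i).realize v) n (t.realize v) := by
  induction n generalizing t with
  | zero => rfl
  | succ n ih =>
    rw [tterm, ih, tval]
    congr 1
    rw [Term.realize_func, hS]
    simp [List.ofFn_succ, mul_assoc]

/-- The formula saying `u = T n w` for some `w`. -/
def psi (n : ℕ) : LL.Formula (Unit ⊕ ℕ) :=
  BoundedFormula.ex (Term.bdEqual (Term.var (Sum.inl (Sum.inl ())))
    (tterm (fun i => Term.var (Sum.inl (Sum.inr i))) n (Term.var (Sum.inr (0 : Fin 1)))))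

lemma realize_psi {G : Type} [Group G] [LL.Structure G]
    (hS : ∀ (n : ℕ) (f : LL.Functions n) (xs : Fin n → G),
      Structure.funMap f xs = (List.ofFn xs).prod) (n : ℕ) (c : G) (a : ℕ → G) :
    (psi n).Realize (Sum.elim (fun _ => c) a) ↔ ∃ w, c = tval a n w := by
  unfold psi Formula.Realize
  rw [BoundedFormula.realize_ex]
  refine exists_congr fun w => ?_
  rw [BoundedFormula.realize_bdEqual, realize_tterm hS]
  simp [Fin.snoc]

lemma realize_congr {G : Type} [LL.Structure G] (φ : LL.Formula ℕ) (a b : ℕ → G)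
    (h : ∀ i ∈ φ.freeVarFinset, a i = b i) : φ.Realize a ↔ φ.Realize b := by
  unfold Formula.Realize
  rw [← BoundedFormula.realize_restrictFreeVar (φ := φ) (f := id) (v := fun i => a i) a
    (fun _ => rfl)]
  exact BoundedFormula.realize_restrictFreeVar (φ := φ) (f := id) (v := fun i => a i) b
    (fun i => h i i.2)

theorem main (G : Type) [Group G]
    (htf : ∀ g : G, ∀ n : ℕ, 0 < n → g ^ n = 1 → g = 1)
    (hX : ∃ X : Set G, X.Infinite ∧ Subgroup.closure X = ⊤ ∧
      ∀ f : X → G, ∃ φ : G →* G, ∀ x : X, φ x = f x)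
    [S : LL.Structure G]
    (hS : ∀ (n : ℕ) (f : LL.Functions n) (xs : Fin n → G),
      Structure.funMap f xs = (List.ofFn xs).prod) :
    ¬ ∀ a b : ℕ → G, (∀ φ : LL.Formula ℕ, φ.Realize a ↔ φ.Realize b) →
        ∀ c : G, ∃ d : G, ∀ ψ : LL.Formula (Unit ⊕ ℕ),
          ψ.Realize (Sum.elim (fun _ => c) a) ↔ ψ.Realize (Sum.elim (fun _ => d) b) := by
  classical
  obtain ⟨X, hXi, hX, hf⟩ := hX
  intro H
  let z : ℕ → G := fun i => (hXi.natEmbedding X i : G)
  have hz : ∀ i, z i ∈ X := fun i => (hXi.natEmbedding X i).2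
  have hinj : Function.Injective z :=
    Subtype.val_injective.comp (hXi.natEmbedding X).injective
  obtain ⟨d, hd⟩ := H (fun i => (z (i + 1) * z (i + 1))⁻¹ * z i) z (by
    intro φ
    obtain ⟨n, hn⟩ := φ.freeVarFinset.exists_nat_subset_range
    obtain ⟨α, h1, -⟩ := exists_aut hX hf z hz hinj n
    let g : LL.Equiv G G :=
      { toEquiv := α.toEquiv
        map_fun' := by
          intro k f x
          rw [hS, hS]
          change α (List.ofFn x).prod = _
          rw [map_list_prod, List.map_ofFn]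
          rfl
        map_rel' := fun r => r.elim }
    rw [← StrongHomClass.realize_formula g φ (v := z)]
    apply realize_congr
    intro i hi
    exact (h1 i (Finset.mem_range.1 (hn hi))).symm) (z 0)
  refine no_limit htf hX hf z hz hinj d (fun n => ?_)
  have := (hd (psi n)).1 ((realize_psi hS n _ _).2 ⟨z n, (tval_z z n).symm⟩)
  exact (realize_psi hS n _ _).1 this

end Pool.Agent.H490Z.RelFree
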